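import Pool.Agent.V11120.PalT.Core

/-!
# Sturmian words in terms of positions
-/

set_option autoImplicit false

namespace Pool.Agent.V11120.Stm

open Pool.Agent.V11120.PalT

/-- recurrent, with exactly one right special factor of each length -/
structure St (u : ℕ → Bool) : Prop where
  rcr : ∀ i n m, ∃ j, m ≤ j ∧ Same u i j n
  ex : ∀ n, ∃ i j, Same u i j n ∧ u (i + n) ≠ u (j + n)
  uniq : ∀ n i j i' j', Same u i j n → u (i + n) ≠ u (j + n) → Same u i' j' n →
    u (i' + n) ≠ u (j' + n) → Same u i i' n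

/-- factors of length `n` -/
def Ln (u : ℕ → Bool) (n : ℕ) : Set (List Bool) := {w | w ∈ Lang u ∧ w.length = n}

/-- right special factors of length `n` -/
def RSs (u : ℕ → Bool) (n : ℕ) : Set (List Bool) :=
  {w | w ∈ Ln u n ∧ w ++ [false] ∈ Lang u ∧ w ++ [true] ∈ Lang u}

theorem fac_succ {A : Type} (u : ℕ → A) (i n : ℕ) :
    fac u i (n + 1) = fac u i n ++ [u (i + n)] := by
  simp [fac, List.range_succ]

theorem Ln_finite (u : ℕ → Bool) (n : ℕ) : (Ln u n).Finite :=
  (finite_len (A := Bool) n).subset (fun _ hw => hw.2.le)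

theorem mem_Ln (u : ℕ → Bool) (i n : ℕ) : fac u i n ∈ Ln u n := ⟨mem_lang _ _ _, fac_length _ _ _⟩

theorem Ln_iff (u : ℕ → Bool) (n : ℕ) (w : List Bool) : w ∈ Ln u n ↔ ∃ i, w = fac u i n := by
  constructor
  · rintro ⟨⟨i, m, rfl⟩, h⟩
    rw [fac_length] at h
    exact ⟨i, by rw [h]⟩
  · rintro ⟨i, rfl⟩
    exact mem_Ln u i n

theorem ext_iff (u : ℕ → Bool) (n : ℕ) (w : List Bool) (hw : w.length = n) (c : Bool) :
    w ++ [c] ∈ Lang u ↔ ∃ i, w = fac u i n ∧ u (i + n) = c := by
  constructor
  · rintro ⟨i, m, h⟩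
    have hm : m = n + 1 := by
      have := congrArg List.length h
      rw [fac_length, List.length_append, hw] at this
      simpa using this.symm
    rw [hm, fac_succ] at h
    obtain ⟨h1, h2⟩ := List.append_inj h (by rw [hw, fac_length])
    exact ⟨i, h1, (List.cons.inj h2).1.symm⟩
  · rintro ⟨i, h1, h2⟩
    refine ⟨i, n + 1, ?_⟩
    rw [fac_succ, h1, h2]

theorem C_succ (u : ℕ → Bool) (n : ℕ) : C u (n + 1) = C u n + (RSs u n).ncard := by
  have hC : ∀ n, C u n = (Ln u n).ncard := fun n => rfl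
  rw [hC, hC]
  set Ac : Bool → Set (List Bool) := fun c => {w | w ∈ Ln u n ∧ w ++ [c] ∈ Lang u} with hAc
  have hfin : ∀ c, (Ac c).Finite := fun c => (Ln_finite u n).subset (fun w hw => hw.1)
  have e1 : Ln u (n + 1) = (fun w => w ++ [false]) '' Ac false ∪
      (fun w => w ++ [true]) '' Ac true := by
    ext w
    constructor
    · intro hw
      rw [Ln_iff] at hw
      obtain ⟨i, rfl⟩ := hw
      rw [fac_succ]
      rcases h : u (i + n)
      · left
        exact ⟨fac u i n, ⟨mem_Ln u i n, (ext_iff u n _ (fac_length _ _ _) _).2 ⟨i, rfl, h⟩⟩,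
          rfl⟩
      · right
        exact ⟨fac u i n, ⟨mem_Ln u i n, (ext_iff u n _ (fac_length _ _ _) _).2 ⟨i, rfl, h⟩⟩,
          rfl⟩
    · rintro (⟨v, ⟨hv1, hv2⟩, rfl⟩ | ⟨v, ⟨hv1, hv2⟩, rfl⟩)
      · exact ⟨hv2, by simp [hv1.2]⟩
      · exact ⟨hv2, by simp [hv1.2]⟩
  have hinj : ∀ c : Bool, Function.Injective (fun w : List Bool => w ++ [c]) := by
    intro c v w h
    exact List.append_cancel_right h
  have hdisj : Disjoint ((fun w => w ++ [false]) '' Ac false)
      ((fun w => w ++ [true]) '' Ac true) := by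
    rw [Set.disjoint_left]
    rintro w ⟨v, -, rfl⟩ ⟨v', -, h⟩
    have := congrArg List.getLast? h
    simp at this
  rw [e1, Set.ncard_union_eq hdisj ((hfin _).image _) ((hfin _).image _),
    Set.ncard_image_of_injective _ (hinj false), Set.ncard_image_of_injective _ (hinj true)]
  rw [← Set.ncard_union_add_ncard_inter _ _ (hfin false) (hfin true)]
  congr 2
  · ext w
    constructor
    · rintro (h | h)
      · exact h.1
      · exact h.1
    · intro hw
      have hw' := hw
      rw [Ln_iff] at hw'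
      obtain ⟨i, rfl⟩ := hw'
      rcases h : u (i + n)
      · left
        exact ⟨hw, (ext_iff u n _ (fac_length _ _ _) _).2 ⟨i, rfl, h⟩⟩
      · right
        exact ⟨hw, (ext_iff u n _ (fac_length _ _ _) _).2 ⟨i, rfl, h⟩⟩
  · ext w
    constructor
    · rintro ⟨h1, h2⟩
      exact ⟨h1.1, h1.2, h2.2⟩
    · rintro ⟨h1, h2, h3⟩
      exact ⟨⟨h1, h2⟩, ⟨h1, h3⟩⟩

theorem RSs_finite (u : ℕ → Bool) (n : ℕ) : (RSs u n).Finite :=
  (Ln_finite u n).subset (fun _ hw => hw.1)

theorem RSs_of (u : ℕ → Bool) (n i j : ℕ) (h : Same u i j n) (h' : u (i + n) ≠ u (j + n)) :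
    fac u i n ∈ RSs u n := by
  have e := (fac_eq_iff u i j n).2 h
  refine ⟨mem_Ln u i n, ?_, ?_⟩
  · rw [ext_iff u n _ (fac_length _ _ _)]
    rcases h1 : u (i + n)
    · exact ⟨i, rfl, h1⟩
    · rcases h2 : u (j + n)
      · exact ⟨j, e, h2⟩
      · rw [h1, h2] at h'; exact absurd rfl h'
  · rw [ext_iff u n _ (fac_length _ _ _)]
    rcases h1 : u (i + n)
    · rcases h2 : u (j + n)
      · rw [h1, h2] at h'; exact absurd rfl h'
      · exact ⟨j, e, h2⟩
    · exact ⟨i, rfl, h1⟩

theorem RSs_pos (u : ℕ → Bool) (n : ℕ) (w : List Bool) (hw : w ∈ RSs u n) :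
    ∃ i j, w = fac u i n ∧ Same u i j n ∧ u (i + n) ≠ u (j + n) := by
  obtain ⟨h1, h2, h3⟩ := hw
  rw [ext_iff u n _ h1.2] at h2 h3
  obtain ⟨i, hi1, hi2⟩ := h2
  obtain ⟨j, hj1, hj2⟩ := h3
  refine ⟨i, j, hi1, ?_, ?_⟩
  · rw [← fac_eq_iff, ← hi1, hj1]
  · rw [hi2, hj2]; decide

/-- Sturmian words satisfy `St` -/
theorem st_of_C (u : ℕ → Bool) (h : ∀ n, C u n = n + 1) : St u := by
  have hRS : ∀ n, (RSs u n).ncard = 1 := by
    intro n
    have := C_succ u n
    rw [h, h] at this
    omega
  refine ⟨?_, ?_, ?_⟩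
  · intro i n m
    -- the tail
    set v : ℕ → Bool := fun t => u (m + t) with hv
    have hfac : ∀ t k, fac v t k = fac u (m + t) k := by
      intro t k
      simp [fac, hv, add_assoc]
    have hsub : ∀ k, Ln v k ⊆ Ln u k := by
      intro k w hw
      rw [Ln_iff] at hw ⊢
      obtain ⟨t, rfl⟩ := hw
      exact ⟨m + t, hfac t k⟩
    have hup : ∀ k, C u k ≤ m + C v k := by
      intro k
      have h1 : Ln u k ⊆ (fun t => fac u t k) '' (Finset.range m : Set ℕ) ∪ Ln v k := by
        intro w hw
        rw [Ln_iff] at hw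
        obtain ⟨t, rfl⟩ := hw
        rcases Nat.lt_or_ge t m with h2 | h2
        · left
          exact ⟨t, by simpa using h2, rfl⟩
        · right
          rw [Ln_iff]
          exact ⟨t - m, by rw [hfac]; congr 1; omega⟩
      calc C u k = (Ln u k).ncard := rfl
        _ ≤ ((fun t => fac u t k) '' (Finset.range m : Set ℕ) ∪ Ln v k).ncard :=
          Set.ncard_le_ncard h1 (((Finset.finite_toSet _).image _).union (Ln_finite v k))
        _ ≤ ((fun t => fac u t k) '' (Finset.range m : Set ℕ)).ncard + (Ln v k).ncard :=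
          Set.ncard_union_le _ _
        _ ≤ m + C v k := by
          have : ((fun t => fac u t k) '' (Finset.range m : Set ℕ)).ncard ≤ m := by
            refine (Set.ncard_image_le (Finset.finite_toSet _)).trans ?_
            rw [Set.ncard_coe_finset, Finset.card_range]
          exact Nat.add_le_add_right this _
    have hRSv : ∀ k, 1 ≤ (RSs v k).ncard := by
      intro k
      by_contra hc
      have h0 : (RSs v k).ncard = 0 := by omega
      rw [Set.ncard_eq_zero (RSs_finite v k)] at h0
      have h1 : ∀ d, RSs v (k + d) = ∅ := by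
        intro d
        rw [Set.eq_empty_iff_forall_notMem]
        intro w hw
        obtain ⟨a, b, -, h2, h3⟩ := RSs_pos v _ w hw
        have : fac v (a + d) k ∈ RSs v k := by
          apply RSs_of v k (a + d) (b + d)
          · intro t ht
            have := h2 (d + t) (by omega)
            rwa [← add_assoc, ← add_assoc] at this
          · rw [add_assoc, add_assoc, add_comm d k]
            exact h3
        rw [h0] at this
        exact this
      have h2 : ∀ d, C v (k + d) = C v k := by
        intro d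
        induction d with
        | zero => rfl
        | succ d ih =>
          rw [← add_assoc, C_succ, ih, h1 d, Set.ncard_empty]
          rfl
      have h3 := hup (k + (m + C v k))
      rw [h2, h] at h3
      omega
    have hCv : ∀ k, k + 1 ≤ C v k := by
      intro k
      induction k with
      | zero =>
        have h1 : (Ln v 0).Nonempty := ⟨_, mem_Ln v 0 0⟩
        have := (Set.ncard_pos (Ln_finite v 0)).2 h1
        exact this
      | succ k ih =>
        have := C_succ v k
        have := hRSv k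
        omega
    have heq : Ln v n = Ln u n := by
      apply Set.eq_of_subset_of_ncard_le (hsub n) _ (Ln_finite u n)
      have h1 := hCv n
      have h2 := h n
      change (Ln u n).ncard ≤ (Ln v n).ncard
      change (Ln u n).ncard = n + 1 at h2
      change n + 1 ≤ (Ln v n).ncard at h1
      omega
    have h1 : fac u i n ∈ Ln v n := by rw [heq]; exact mem_Ln u i n
    rw [Ln_iff] at h1
    obtain ⟨t, ht⟩ := h1
    rw [hfac, fac_eq_iff] at ht
    exact ⟨m + t, by omega, ht⟩
  · intro n
    have h1 : (RSs u n).Nonempty := by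
      rw [← Set.ncard_pos (RSs_finite u n), hRS]
      exact one_pos
    obtain ⟨w, hw⟩ := h1
    obtain ⟨i, j, -, h2, h3⟩ := RSs_pos u n w hw
    exact ⟨i, j, h2, h3⟩
  · intro n i j i' j' h1 h2 h3 h4
    obtain ⟨w, hw⟩ := Set.ncard_eq_one.1 (hRS n)
    have e1 := RSs_of u n i j h1 h2
    have e2 := RSs_of u n i' j' h3 h4
    rw [hw, Set.mem_singleton_iff] at e1 e2
    rw [← fac_eq_iff, e1, e2]

end Pool.Agent.V11120.Stm
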