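import Pool.Agent.V11120.Stm.Basic

/-!
# Desubstitution of Sturmian words
-/

set_option autoImplicit false

namespace Pool.Agent.V11120.Stm

open Pool.Agent.V11120.PalT

theorem exists_change (u : ℕ → Bool) (h : St u) (c : Bool) (m : ℕ) :
    ∃ t, m ≤ t ∧ u t = c ∧ u (t + 1) = !c := by
  obtain ⟨i, j, -, hij⟩ := h.ex 0
  rw [add_zero, add_zero] at hij
  have hocc : ∀ d : Bool, ∀ m, ∃ s, m ≤ s ∧ u s = d := by
    intro d m
    have h1 : ∃ s, u s = d := by
      rcases h1 : u i <;> rcases h2 : u j <;> cases d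
      · exact ⟨i, h1⟩
      · rw [h1, h2] at hij; exact absurd rfl hij
      · exact ⟨i, h1⟩
      · exact ⟨j, h2⟩
      · exact ⟨j, h2⟩
      · exact ⟨i, h1⟩
      · rw [h1, h2] at hij; exact absurd rfl hij
      · exact ⟨i, h1⟩
    obtain ⟨s, hs⟩ := h1
    obtain ⟨s', h2, h3⟩ := h.rcr s 1 m
    exact ⟨s', h2, by rw [← hs]; exact (h3 0 (by omega)).symm⟩
  obtain ⟨s, hs1, hs2⟩ := hocc c m
  obtain ⟨s', hs3, hs4⟩ := hocc (!c) (s + 1)
  have hex : ∃ d, u (s + (d + 1)) = !c := ⟨s' - s - 1, by
    rw [show s + (s' - s - 1 + 1) = s' by omega]; exact hs4⟩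
  classical
  have h1 := Nat.find_spec hex
  have h2 : ∀ d, d < Nat.find hex → ¬ u (s + (d + 1)) = !c := fun d hd => Nat.find_min hex hd
  set d := Nat.find hex with hd
  refine ⟨s + d, by omega, ?_, h1⟩
  rcases Nat.eq_zero_or_pos d with h0 | h0
  · rw [h0]; exact hs2
  · have h3 := h2 (d - 1) (by omega)
    rw [show s + (d - 1 + 1) = s + d by omega] at h3
    rcases h4 : u (s + d) <;> cases c
    · rfl
    · rw [h4] at h3; exact absurd rfl h3
    · rw [h4] at h3; exact absurd rfl h3
    · rfl

/-- one of the letters is isolated -/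
theorem typ (u : ℕ → Bool) (h : St u) : ∃ a : Bool, ∀ i, u i = !a → u (i + 1) = a := by
  by_contra hc
  push Not at hc
  obtain ⟨i, hi1, hi2⟩ := hc false
  obtain ⟨j, hj1, hj2⟩ := hc true
  have hi1 : u i = true := hi1
  have hj1 : u j = false := hj1
  have hi2 : u (i + 1) = true := by
    rcases h1 : u (i + 1)
    · exact absurd h1 hi2
    · rfl
  have hj2 : u (j + 1) = false := by
    rcases h1 : u (j + 1)
    · rfl
    · exact absurd h1 hj2
  obtain ⟨s, -, hs1, hs2⟩ := exists_change u h true 0
  obtain ⟨t, -, ht1, ht2⟩ := exists_change u h false 0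
  have := h.uniq 1 i s j t
    (fun x hx => by
      have : x = 0 := by omega
      rw [this, add_zero, add_zero, hi1, hs1])
    (by rw [hi2, hs2]; decide)
    (fun x hx => by
      have : x = 0 := by omega
      rw [this, add_zero, add_zero, hj1, ht1])
    (by rw [hj2, ht2]; decide)
  have := this 0 (by omega)
  rw [add_zero, add_zero, hi1, hj1] at this
  exact absurd this (by decide)

/-- positions of the letter `a` from `s0` on -/
def pp (u : ℕ → Bool) (a : Bool) (s0 : ℕ) : ℕ → ℕ
  | 0 => s0
  | k + 1 => if u (pp u a s0 k + 1) = a then pp u a s0 k + 1 else pp u a s0 k + 2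

/-- the desubstituted word -/
def ud (u : ℕ → Bool) (a : Bool) (s0 : ℕ) (k : ℕ) : Bool := u (pp u a s0 k + 1)

/-- the data of a desubstitution -/
structure DS (u : ℕ → Bool) (a : Bool) (s0 : ℕ) : Prop where
  st : St u
  ty : ∀ i, u i = !a → u (i + 1) = a
  h0 : u s0 = a

section

variable {u : ℕ → Bool} {a : Bool} {s0 : ℕ}

theorem not_iff (x a : Bool) : ¬ x = a ↔ x = !a := by cases x <;> cases a <;> decide

theorem pp_a (k : ℕ) (h : ud u a s0 k = a) : pp u a s0 (k + 1) = pp u a s0 k + 1 := by
  rw [pp, if_pos]; exact h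

theorem pp_b (k : ℕ) (h : ud u a s0 k = !a) : pp u a s0 (k + 1) = pp u a s0 k + 2 := by
  rw [pp, if_neg]
  rw [not_iff]; exact h

theorem ud_cases (k : ℕ) : ud u a s0 k = a ∨ ud u a s0 k = !a := by
  rcases ud u a s0 k <;> cases a <;> simp

theorem pp_lt (k : ℕ) : pp u a s0 k < pp u a s0 (k + 1) ∧
    pp u a s0 (k + 1) ≤ pp u a s0 k + 2 := by
  rcases ud_cases (u := u) (a := a) (s0 := s0) k with h | h
  · rw [pp_a k h]; omega
  · rw [pp_b k h]; omega

theorem pp_mono {j k : ℕ} (h : j < k) : pp u a s0 j < pp u a s0 k :=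
  strictMono_nat_of_lt_succ (fun k => (pp_lt k).1) h

theorem pp_mono' {j k : ℕ} (h : j ≤ k) : pp u a s0 j ≤ pp u a s0 k :=
  (strictMono_nat_of_lt_succ (fun k => (pp_lt k).1)).monotone h

theorem pp_inj {j k : ℕ} (h : pp u a s0 j = pp u a s0 k) : j = k :=
  (strictMono_nat_of_lt_succ (fun k => (pp_lt (u := u) (a := a) (s0 := s0) k).1)).injective h

theorem pp_ge (k : ℕ) : s0 + k ≤ pp u a s0 k := by
  induction k with
  | zero => exact le_rfl
  | succ k ih => have := (pp_lt (u := u) (a := a) (s0 := s0) k).1; omega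

theorem pp_le (k d : ℕ) : pp u a s0 (k + d) ≤ pp u a s0 k + 2 * d := by
  induction d with
  | zero => exact le_rfl
  | succ d ih => have := (pp_lt (u := u) (a := a) (s0 := s0) (k + d)).2; rw [← add_assoc]; omega

theorem pp_ge' (k d : ℕ) : pp u a s0 k + d ≤ pp u a s0 (k + d) := by
  induction d with
  | zero => exact le_rfl
  | succ d ih =>
    have := (pp_lt (u := u) (a := a) (s0 := s0) (k + d)).1
    rw [show k + (d + 1) = k + d + 1 by ring]
    omega

theorem u_pp (D : DS u a s0) (k : ℕ) : u (pp u a s0 k) = a := by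
  induction k with
  | zero => exact D.h0
  | succ k ih =>
    rcases ud_cases (u := u) (a := a) (s0 := s0) k with h | h
    · rw [pp_a k h]; exact h
    · rw [pp_b k h]; exact D.ty _ h

theorem pp_surj (D : DS u a s0) (j : ℕ) (hj : s0 ≤ j) (h : u j = a) :
    ∃ k, pp u a s0 k = j := by
  classical
  have hex : ∃ k, j < pp u a s0 (k + 1) := ⟨j, by
    have := pp_ge (u := u) (a := a) (s0 := s0) (j + 1); omega⟩
  have h1 := Nat.find_spec hex
  have h2 : ∀ k, k < Nat.find hex → ¬ j < pp u a s0 (k + 1) := fun k hk => Nat.find_min hex hk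
  set k := Nat.find hex with hk
  have h3 : pp u a s0 k ≤ j := by
    rcases Nat.eq_zero_or_pos k with h0 | h0
    · rw [h0]; exact hj
    · have := h2 (k - 1) (by omega)
      rw [show k - 1 + 1 = k by omega] at this
      omega
  refine ⟨k, ?_⟩
  rcases ud_cases (u := u) (a := a) (s0 := s0) k with h4 | h4
  · rw [pp_a k h4] at h1; omega
  · rw [pp_b k h4] at h1
    by_contra hc
    have h5 : j = pp u a s0 k + 1 := by omega
    rw [h5] at h
    rw [ud, h] at h4
    cases a <;> simp at h4

theorem same_lift (D : DS u a s0) (l : ℕ) : ∀ k k', Same (ud u a s0) k k' l →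
    ∃ d, pp u a s0 (k + l) = pp u a s0 k + d ∧ pp u a s0 (k' + l) = pp u a s0 k' + d ∧
      Same u (pp u a s0 k) (pp u a s0 k') (d + 1) := by
  induction l with
  | zero =>
    intro k k' _
    refine ⟨0, rfl, rfl, ?_⟩
    intro t ht
    rw [show t = 0 by omega, add_zero, add_zero, u_pp D, u_pp D]
  | succ l ih =>
    intro k k' h
    obtain ⟨d, h1, h2, h3⟩ := ih k k' (fun t ht => h t (by omega))
    have h4 := h l (by omega)
    rcases ud_cases (u := u) (a := a) (s0 := s0) (k + l) with h5 | h5
    · refine ⟨d + 1, ?_, ?_, ?_⟩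
      · rw [← add_assoc, pp_a _ h5, h1]; ring
      · rw [← add_assoc, pp_a _ (h4 ▸ h5), h2]; ring
      · intro t ht
        rcases Nat.lt_or_ge t (d + 1) with h6 | h6
        · exact h3 t h6
        · have : t = d + 1 := by omega
          subst this
          rw [ud, ud, h1, h2] at h4
          rw [← add_assoc, ← add_assoc]
          exact h4
    · have h5' : ud u a s0 (k' + l) = !a := h4 ▸ h5
      refine ⟨d + 2, ?_, ?_, ?_⟩
      · rw [← add_assoc, pp_b _ h5, h1]; ring
      · rw [← add_assoc, pp_b _ h5', h2]; ring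
      · intro t ht
        rcases Nat.lt_or_ge t (d + 1) with h6 | h6
        · exact h3 t h6
        · rcases Nat.lt_or_ge t (d + 2) with h7 | h7
          · have : t = d + 1 := by omega
            subst this
            rw [ud, ud, h1, h2] at h4
            rw [← add_assoc, ← add_assoc]
            exact h4
          · have : t = d + 2 := by omega
            subst this
            have e1 := u_pp D (k + l + 1)
            have e2 := u_pp D (k' + l + 1)
            rw [pp_b _ h5, h1] at e1
            rw [pp_b _ h5', h2] at e2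
            rw [← add_assoc, ← add_assoc, e1, e2]

theorem same_drop (D : DS u a s0) (l : ℕ) : ∀ k k' d, pp u a s0 (k + l) ≤ pp u a s0 k + d →
    Same u (pp u a s0 k) (pp u a s0 k') (d + 1) → Same (ud u a s0) k k' l := by
  induction l with
  | zero => intro k k' d _ _ t ht; omega
  | succ l ih =>
    intro k k' d hd h
    have hlt := (pp_lt (u := u) (a := a) (s0 := s0) (k + l)).1
    rw [← add_assoc] at hd
    have h1 := ih k k' d (by omega) h
    obtain ⟨e, he1, he2, -⟩ := same_lift D l k k' h1
    intro t ht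
    rcases Nat.lt_or_ge t l with h2 | h2
    · exact h1 t h2
    · have : t = l := by omega
      subst this
      have := h (e + 1) (by omega)
      rw [← add_assoc, ← add_assoc, ← he1, ← he2] at this
      exact this

theorem opp_lift (D : DS u a s0) (l : ℕ) : ∀ k k', Opp (ud u a s0) k k' l →
    ∃ d, pp u a s0 (k + l) = pp u a s0 k + d ∧ pp u a s0 (k' + l) = pp u a s0 k' + d ∧
      Opp u (pp u a s0 k) (pp u a s0 k') (d + 1) := by
  induction l with
  | zero =>
    intro k k' _
    refine ⟨0, rfl, rfl, ?_⟩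
    intro s t ht
    rw [show t = 0 by omega, show s = 0 by omega, add_zero, add_zero, u_pp D, u_pp D]
  | succ l ih =>
    intro k k' h
    obtain ⟨d, h1, h2, h3⟩ := ih k (k' + 1) (by
      intro s t hst
      have := h s (t + 1) (by omega)
      rwa [show k' + (t + 1) = k' + 1 + t by ring] at this)
    have h4 : ud u a s0 (k + l) = ud u a s0 k' := by
      have := h l 0 (by omega)
      rwa [add_zero] at this
    rw [show k' + 1 + l = k' + (l + 1) by ring] at h2
    rcases ud_cases (u := u) (a := a) (s0 := s0) (k + l) with h5 | h5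
    · have h5' : ud u a s0 k' = a := h4 ▸ h5
      rw [pp_a _ h5'] at h2 h3
      refine ⟨d + 1, ?_, ?_, ?_⟩
      · rw [← add_assoc, pp_a _ h5, h1]; ring
      · rw [h2]; ring
      · intro s t hst
        rcases Nat.lt_or_ge s (d + 1) with h6 | h6
        · have := h3 s (d - s) (by omega)
          rw [this]; congr 1; omega
        · have e1 := u_pp D (k + l + 1)
          rw [pp_a _ h5, h1] at e1
          rw [show s = d + 1 by omega, show t = 0 by omega, ← add_assoc, e1, add_zero, u_pp D]
    · have h5' : ud u a s0 k' = !a := h4 ▸ h5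
      rw [pp_b _ h5'] at h2 h3
      refine ⟨d + 2, ?_, ?_, ?_⟩
      · rw [← add_assoc, pp_b _ h5, h1]; ring
      · rw [h2]; ring
      · intro s t hst
        rcases Nat.lt_or_ge s (d + 1) with h6 | h6
        · have := h3 s (d - s) (by omega)
          rw [this]; congr 1; omega
        · rcases Nat.lt_or_ge s (d + 2) with h7 | h7
          · have e1 : u (pp u a s0 (k + l) + 1) = !a := h5
            rw [h1] at e1
            have e2 : u (pp u a s0 k' + 1) = !a := h5'
            rw [show s = d + 1 by omega, show t = 1 by omega, ← add_assoc, e1, e2]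
          · have e1 := u_pp D (k + l + 1)
            rw [pp_b _ h5, h1] at e1
            rw [show s = d + 2 by omega, show t = 0 by omega, ← add_assoc, e1, add_zero,
              u_pp D]

/-- going backwards from two positions of `a` -/
theorem back (D : DS u a s0) (d m1 m2 : ℕ) (h1 : s0 + d + 1 ≤ pp u a s0 m1)
    (h2 : s0 + d + 1 ≤ pp u a s0 m2)
    (h : ∀ s, s ≤ d → u (pp u a s0 m1 - s) = u (pp u a s0 m2 - s)) (t : ℕ) (ht : 2 * t ≤ d) :
    ∃ k1 k2 e, m1 = k1 + t ∧ m2 = k2 + t ∧ pp u a s0 m1 = pp u a s0 k1 + e ∧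
      pp u a s0 m2 = pp u a s0 k2 + e ∧ e ≤ 2 * t ∧ Same (ud u a s0) k1 k2 t := by
  induction t with
  | zero => exact ⟨m1, m2, 0, rfl, rfl, rfl, rfl, le_rfl, fun t ht => by omega⟩
  | succ t ih =>
    obtain ⟨k1, k2, e, e1, e2, e3, e4, e5, e6⟩ := ih (by omega)
    have hk1 : 0 < k1 := by
      rcases Nat.eq_zero_or_pos k1 with h0 | h0
      · rw [h0] at e3
        have : pp u a s0 0 = s0 := rfl
        omega
      · exact h0
    have hk2 : 0 < k2 := by
      rcases Nat.eq_zero_or_pos k2 with h0 | h0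
      · rw [h0] at e4
        have : pp u a s0 0 = s0 := rfl
        omega
      · exact h0
    obtain ⟨j1, rfl⟩ : ∃ j, k1 = j + 1 := ⟨k1 - 1, by omega⟩
    obtain ⟨j2, rfl⟩ : ∃ j, k2 = j + 1 := ⟨k2 - 1, by omega⟩
    have h3 := h (e + 1) (by omega)
    have key : ∀ j m : ℕ, pp u a s0 m = pp u a s0 (j + 1) + e →
        (ud u a s0 j = a ↔ u (pp u a s0 m - (e + 1)) = a) := by
      intro j m hm
      rcases ud_cases (u := u) (a := a) (s0 := s0) j with h4 | h4
      · rw [pp_a j h4] at hm
        rw [show pp u a s0 m - (e + 1) = pp u a s0 j by omega, u_pp D, h4]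
      · rw [pp_b j h4] at hm
        rw [show pp u a s0 m - (e + 1) = pp u a s0 j + 1 by omega]
        rfl
    have k1' := key j1 m1 e3
    have k2' := key j2 m2 e4
    rw [h3] at k1'
    have hiff := k1'.trans k2'.symm
    rcases ud_cases (u := u) (a := a) (s0 := s0) j1 with h4 | h4
    · have h5 := hiff.1 h4
      refine ⟨j1, j2, e + 1, by omega, by omega, ?_, ?_, by omega, ?_⟩
      · rw [pp_a j1 h4] at e3; omega
      · rw [pp_a j2 h5] at e4; omega
      · intro x hx
        rcases Nat.eq_zero_or_pos x with h0 | h0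
        · rw [h0, add_zero, add_zero, h4, h5]
        · have := e6 (x - 1) (by omega)
          rwa [show j1 + 1 + (x - 1) = j1 + x by omega,
            show j2 + 1 + (x - 1) = j2 + x by omega] at this
    · have h5 : ud u a s0 j2 = !a := by
        rw [← not_iff]
        intro hc
        have := hiff.2 hc
        rw [h4] at this
        cases a <;> simp at this
      refine ⟨j1, j2, e + 2, by omega, by omega, ?_, ?_, by omega, ?_⟩
      · rw [pp_b j1 h4] at e3; omega
      · rw [pp_b j2 h5] at e4; omega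
      · intro x hx
        rcases Nat.eq_zero_or_pos x with h0 | h0
        · rw [h0, add_zero, add_zero, h4, h5]
        · have := e6 (x - 1) (by omega)
          rwa [show j1 + 1 + (x - 1) = j1 + x by omega,
            show j2 + 1 + (x - 1) = j2 + x by omega] at this

theorem exists_start (h : St u) (ht : ∀ i, u i = !a → u (i + 1) = a) :
    ∃ s0, s0 ≤ 1 ∧ DS u a s0 := by
  by_cases h0 : u 0 = a
  · exact ⟨0, by omega, h, ht, h0⟩
  · rw [not_iff] at h0
    exact ⟨1, le_rfl, h, ht, ht 0 h0⟩

/-- occurrences of blocks -/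
theorem occ_lift (D : DS u a s0) (k l j : ℕ) (hj : s0 ≤ j)
    (h : Same u (pp u a s0 k) j (pp u a s0 (k + l) - pp u a s0 k + 1)) :
    ∃ k', pp u a s0 k' = j ∧ Same (ud u a s0) k k' l := by
  have h1 := h 0 (by omega)
  rw [add_zero, add_zero, u_pp D] at h1
  obtain ⟨k', hk'⟩ := pp_surj D j hj h1.symm
  refine ⟨k', hk', ?_⟩
  have := pp_mono' (u := u) (a := a) (s0 := s0) (show k ≤ k + l by omega)
  apply same_drop D l k k' (pp u a s0 (k + l) - pp u a s0 k) (by omega)
  rw [hk']
  exact h

theorem st_ud (D : DS u a s0) : St (ud u a s0) := by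
  refine ⟨?_, ?_, ?_⟩
  · intro k l m
    obtain ⟨j, hj1, hj2⟩ := D.st.rcr (pp u a s0 k) (pp u a s0 (k + l) - pp u a s0 k + 1)
      (s0 + 2 * m)
    obtain ⟨k', hk1, hk2⟩ := occ_lift D k l j (by omega) hj2
    refine ⟨k', ?_, hk2⟩
    have := pp_le (u := u) (a := a) (s0 := s0) 0 k'
    rw [zero_add] at this
    have h0 : pp u a s0 0 = s0 := rfl
    omega
  · intro l
    obtain ⟨i, j, hij1, hij2⟩ := D.st.ex (2 * l + 1)
    obtain ⟨i', hi1, hi2⟩ := D.st.rcr i (2 * l + 1 + 1) (s0 + 1)
    obtain ⟨j', hj1, hj2⟩ := D.st.rcr j (2 * l + 1 + 1) (s0 + 1)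
    have h1 : Same u i' j' (2 * l + 1) := by
      intro t ht
      rw [← hi2 t (by omega), ← hj2 t (by omega)]
      exact hij1 t ht
    have h2 : u (i' + (2 * l + 1)) ≠ u (j' + (2 * l + 1)) := by
      rw [← hi2 _ (by omega), ← hj2 _ (by omega)]
      exact hij2
    have h3 := h1 (2 * l) (by omega)
    have h4 : u (i' + 2 * l) = a := by
      by_contra hc
      rw [not_iff] at hc
      apply h2
      have e1 := D.ty _ hc
      rw [h3] at hc
      have e2 := D.ty _ hc
      rw [← add_assoc, ← add_assoc, e1, e2]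
    have h5 : u (j' + 2 * l) = a := by rw [← h3]; exact h4
    obtain ⟨m1, hm1⟩ := pp_surj D _ (by omega) h4
    obtain ⟨m2, hm2⟩ := pp_surj D _ (by omega) h5
    obtain ⟨k1, k2, e, e1, e2, e3, e4, e5, e6⟩ := back D (2 * l) m1 m2 (by omega) (by omega) (by
      intro s hs
      rw [hm1, hm2]
      have := h1 (2 * l - s) (by omega)
      rwa [show i' + (2 * l - s) = i' + 2 * l - s by omega,
        show j' + (2 * l - s) = j' + 2 * l - s by omega] at this) l le_rfl
    refine ⟨k1, k2, e6, ?_⟩
    rw [← e1, ← e2, ud, ud, hm1, hm2]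
    exact h2
  · intro l k1 k2 k3 k4 h1 h2 h3 h4
    obtain ⟨d, e1, e2, e3⟩ := same_lift D l k1 k2 h1
    obtain ⟨f, f1, f2, f3⟩ := same_lift D l k3 k4 h3
    rw [ud, ud, e1, e2] at h2
    rw [ud, ud, f1, f2] at h4
    -- symmetric argument
    have key : ∀ k1 k2 k3 k4 d f, d ≤ f → pp u a s0 (k1 + l) = pp u a s0 k1 + d →
        Same u (pp u a s0 k1) (pp u a s0 k2) (d + 1) →
        pp u a s0 (k3 + l) = pp u a s0 k3 + f →
        Same u (pp u a s0 k3) (pp u a s0 k4) (f + 1) →
        u (pp u a s0 k1 + d + 1) ≠ u (pp u a s0 k2 + d + 1) →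
        u (pp u a s0 k3 + f + 1) ≠ u (pp u a s0 k4 + f + 1) →
        Same (ud u a s0) k1 k3 l := by
      intro k1 k2 k3 k4 d f hdf e1 e3 f1 f3 h2 h4
      have g1 : Same u (pp u a s0 k3 + (f - d)) (pp u a s0 k4 + (f - d)) (d + 1) := by
        intro t ht
        have := f3 (f - d + t) (by omega)
        rwa [← add_assoc, ← add_assoc] at this
      have g2 := D.st.uniq (d + 1) _ _ _ _ e3 (by rw [← add_assoc, ← add_assoc]; exact h2) g1
        (by
          rw [show pp u a s0 k3 + (f - d) + (d + 1) = pp u a s0 k3 + f + 1 by omega,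
            show pp u a s0 k4 + (f - d) + (d + 1) = pp u a s0 k4 + f + 1 by omega]
          exact h4)
      have hge := pp_ge (u := u) (a := a) (s0 := s0) k3
      obtain ⟨k5, g3, g4⟩ := occ_lift D k1 l (pp u a s0 k3 + (f - d)) (by omega) (by
        rw [e1, show pp u a s0 k1 + d - pp u a s0 k1 + 1 = d + 1 by omega]
        exact g2)
      obtain ⟨d', g5, g6, -⟩ := same_lift D l k1 k5 g4
      have : k5 + l = k3 + l := by
        apply pp_inj (u := u) (a := a) (s0 := s0)
        omega
      have : k5 = k3 := by omega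
      rw [this] at g4
      exact g4
    rcases Nat.le_total d f with hdf | hdf
    · exact key k1 k2 k3 k4 d f hdf e1 e3 f1 f3 h2 h4
    · exact (key k3 k4 k1 k2 f d hdf f1 f3 e1 e3 h4 h2).symm

end

end Pool.Agent.V11120.Stm
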