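import Pool.Agent.V11120.Stm.Desub

/-!
# Sturmian words driving a finite transitive group: every factor meets every state
-/

set_option autoImplicit false

namespace Pool.Agent.V11120.Stm

open Pool.Agent.V11120.PalT

variable {Ω : Type}

/-- the states -/
def stt (R : Bool → Equiv.Perm Ω) (u : ℕ → Bool) (w0 : Ω) : ℕ → Ω
  | 0 => w0
  | i + 1 => R (u i) (stt R u w0 i)

/-- transitivity -/
def Tr (R : Bool → Equiv.Perm Ω) : Prop :=
  ∀ V : Set Ω, V.Nonempty → (∀ c, ∀ w ∈ V, R c w ∈ V) → V = Set.univ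

/-- the permutations of the desubstituted word -/
def Rd (R : Bool → Equiv.Perm Ω) (a : Bool) (c : Bool) : Equiv.Perm Ω :=
  if c = a then R a else (R (!a)).trans (R a)

theorem Rd_a (R : Bool → Equiv.Perm Ω) (a : Bool) (w : Ω) : Rd R a a w = R a w := by
  simp [Rd]

theorem Rd_b (R : Bool → Equiv.Perm Ω) (a : Bool) (w : Ω) :
    Rd R a (!a) w = R a (R (!a) w) := by
  have : (!a) ≠ a := by cases a <;> decide
  simp [Rd]

theorem stt_ud {u : ℕ → Bool} {a : Bool} {s0 : ℕ} (D : DS u a s0) (R : Bool → Equiv.Perm Ω)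
    (w0 : Ω) (k : ℕ) : stt (Rd R a) (ud u a s0) (stt R u w0 (s0 + 1)) k =
      stt R u w0 (pp u a s0 k + 1) := by
  induction k with
  | zero => rfl
  | succ k ih =>
    rw [stt, ih]
    rcases ud_cases (u := u) (a := a) (s0 := s0) k with h | h
    · rw [h, Rd_a, pp_a k h]
      have : u (pp u a s0 k + 1) = a := h
      conv_rhs => rw [stt, this]
    · rw [h, Rd_b, pp_b k h]
      have h1 : u (pp u a s0 k + 1) = !a := h
      have h2 : u (pp u a s0 k + 1 + 1) = a := D.ty _ h1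
      conv_rhs => rw [show pp u a s0 k + 2 + 1 = pp u a s0 k + 1 + 1 + 1 by ring, stt, stt, h1,
        h2]

/-- the states met infinitely often with the letter `c` -/
def I (R : Bool → Equiv.Perm Ω) (u : ℕ → Bool) (w0 : Ω) (c : Bool) : Set Ω :=
  {w | ∀ m, ∃ i, m ≤ i ∧ u i = c ∧ stt R u w0 i = w}

section

variable {u : ℕ → Bool} {a : Bool} {s0 : ℕ}

theorem pp_of_b (D : DS u a s0) (i : ℕ) (hi : s0 < i) (h : u i = !a) :
    ∃ k, pp u a s0 k + 1 = i ∧ ud u a s0 k = !a := by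
  obtain ⟨j, rfl⟩ : ∃ j, i = j + 1 := ⟨i - 1, by omega⟩
  have h1 : u j = a := by
    by_contra hc
    rw [not_iff] at hc
    have := D.ty j hc
    rw [h] at this
    cases a <;> simp at this
  obtain ⟨k, hk⟩ := pp_surj D j (by omega) h1
  refine ⟨k, by rw [hk], ?_⟩
  rw [ud, hk]
  exact h

theorem I_b (D : DS u a s0) (R : Bool → Equiv.Perm Ω) (w0 : Ω) :
    I (Rd R a) (ud u a s0) (stt R u w0 (s0 + 1)) (!a) = I R u w0 (!a) := by
  ext w
  constructor
  · intro h m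
    obtain ⟨k, hk1, hk2, hk3⟩ := h m
    rw [stt_ud D] at hk3
    have := pp_ge (u := u) (a := a) (s0 := s0) k
    exact ⟨pp u a s0 k + 1, by omega, hk2, hk3⟩
  · intro h m
    obtain ⟨i, hi1, hi2, hi3⟩ := h (s0 + 2 * m + 1)
    obtain ⟨k, hk1, hk2⟩ := pp_of_b D i (by omega) hi2
    refine ⟨k, ?_, hk2, ?_⟩
    · have := pp_le (u := u) (a := a) (s0 := s0) 0 k
      have h0 : pp u a s0 0 = s0 := rfl
      rw [zero_add] at this
      omega
    · rw [stt_ud D, hk1]; exact hi3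

theorem I_a (D : DS u a s0) (R : Bool → Equiv.Perm Ω) (w0 : Ω) :
    I (Rd R a) (ud u a s0) (stt R u w0 (s0 + 1)) a ⊆ I R u w0 a := by
  intro w h m
  obtain ⟨k, hk1, hk2, hk3⟩ := h m
  rw [stt_ud D] at hk3
  have := pp_ge (u := u) (a := a) (s0 := s0) k
  exact ⟨pp u a s0 k + 1, by omega, hk2, hk3⟩

theorem I_ba (D : DS u a s0) (R : Bool → Equiv.Perm Ω) (w0 : Ω) :
    (R (!a)) '' (I (Rd R a) (ud u a s0) (stt R u w0 (s0 + 1)) (!a)) ⊆ I R u w0 a := by
  rintro w ⟨w', h, rfl⟩ m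
  obtain ⟨k, hk1, hk2, hk3⟩ := h m
  rw [stt_ud D] at hk3
  have := pp_ge (u := u) (a := a) (s0 := s0) k
  have h1 : u (pp u a s0 k + 1) = !a := hk2
  exact ⟨pp u a s0 k + 1 + 1, by omega, D.ty _ h1, by rw [stt, h1, hk3]⟩

theorem I_ab (D : DS u a s0) (R : Bool → Equiv.Perm Ω) (w0 : Ω) :
    I R u w0 (!a) ⊆ (R a) '' (I R u w0 a) := by
  intro w h
  refine ⟨(R a).symm w, ?_, by simp⟩
  intro m
  obtain ⟨i, hi1, hi2, hi3⟩ := h (m + 1)
  obtain ⟨j, rfl⟩ : ∃ j, i = j + 1 := ⟨i - 1, by omega⟩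
  have h1 : u j = a := by
    by_contra hc
    rw [not_iff] at hc
    have := D.ty j hc
    rw [hi2] at this
    cases a <;> simp at this
  refine ⟨j, by omega, h1, ?_⟩
  rw [stt, h1] at hi3
  rw [← hi3]
  simp

end

theorem Tr_Rd [Finite Ω] (R : Bool → Equiv.Perm Ω) (a : Bool) (h : Tr R) : Tr (Rd R a) := by
  intro V hV hc
  have ha : ∀ w ∈ V, R a w ∈ V := by
    intro w hw
    have := hc a w hw
    rwa [Rd_a] at this
  have hsurj : Set.SurjOn (R a) V V := by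
    have h1 : Set.MapsTo (R a) V V := fun w hw => ha w hw
    have h2 : (R a) '' V = V := by
      apply Set.eq_of_subset_of_ncard_le (Set.image_subset_iff.2 h1) _ (Set.toFinite V)
      rw [Set.ncard_image_of_injective _ (R a).injective]
    intro w hw
    rw [h2]
    exact hw
  apply h V hV
  intro c w hw
  by_cases hca : c = a
  · rw [hca]; exact ha w hw
  · rw [not_iff] at hca
    rw [hca]
    have h1 := hc (!a) w hw
    rw [Rd_b] at h1
    obtain ⟨w', hw1, hw2⟩ := hsurj h1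
    rw [← (R a).injective hw2]
    exact hw1

/-- configurations -/
structure Cf (Ω : Type) where
  u : ℕ → Bool
  R : Bool → Equiv.Perm Ω
  w0 : Ω
  st : St u
  tr : Tr R

/-- the set of states of a configuration -/
def Cf.J (τ : Cf Ω) (c : Bool) : Set Ω := I τ.R τ.u τ.w0 c

/-- the size -/
noncomputable def Cf.sz (τ : Cf Ω) : ℕ := (τ.J false).ncard + (τ.J true).ncard

theorem Cf.sz_eq (τ : Cf Ω) (a : Bool) : τ.sz = (τ.J a).ncard + (τ.J (!a)).ncard := by
  cases a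
  · rfl
  · rw [Cf.sz, add_comm]; rfl

/-- the desubstituted configuration -/
def Cf.next [Finite Ω] (τ : Cf Ω) {a : Bool} {s0 : ℕ} (D : DS τ.u a s0) : Cf Ω :=
  ⟨ud τ.u a s0, Rd τ.R a, stt τ.R τ.u τ.w0 (s0 + 1), st_ud D, Tr_Rd τ.R a τ.tr⟩

theorem J_nonempty [Finite Ω] (τ : Cf Ω) (c : Bool) : (τ.J c).Nonempty := by
  by_contra hc
  rw [Set.not_nonempty_iff_eq_empty] at hc
  have h1 : ∀ w, ∃ m, ∀ i, m ≤ i → τ.u i = c → stt τ.R τ.u τ.w0 i ≠ w := by
    intro w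
    have h2 : w ∉ τ.J c := by rw [hc]; exact Set.notMem_empty w
    by_contra h3
    push Not at h3
    exact h2 h3
  choose f hf using h1
  obtain ⟨B, hB⟩ := (Set.finite_range f).bddAbove
  obtain ⟨t, ht1, ht2, -⟩ := exists_change τ.u τ.st c B
  exact hf (stt τ.R τ.u τ.w0 t) t
    ((hB ⟨_, rfl⟩ : f (stt τ.R τ.u τ.w0 t) ≤ B).trans ht1) ht2 rfl

/-- minimal configurations -/
def Cf.Min (τ : Cf Ω) : Prop := ∀ σ : Cf Ω, τ.sz ≤ σ.sz

section

variable [Finite Ω]

theorem min_next (τ : Cf Ω) (hτ : τ.Min) {a : Bool} {s0 : ℕ} (D : DS τ.u a s0) :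
    (τ.next D).Min ∧ ∀ c, (τ.next D).J c = τ.J c := by
  have hb : (τ.next D).J (!a) = τ.J (!a) := I_b D τ.R τ.w0
  have ha : (τ.next D).J a ⊆ τ.J a := I_a D τ.R τ.w0
  have h1 := hτ (τ.next D)
  rw [τ.sz_eq a, (τ.next D).sz_eq a, hb] at h1
  have ha' : (τ.next D).J a = τ.J a :=
    Set.eq_of_subset_of_ncard_le ha (by omega) (Set.toFinite _)
  have hJ : ∀ c, (τ.next D).J c = τ.J c := by
    intro c
    by_cases hca : c = a
    · rw [hca]; exact ha'
    · rw [not_iff] at hca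
      rw [hca]; exact hb
  refine ⟨?_, hJ⟩
  intro σ
  have h2 : (τ.next D).sz = τ.sz := by
    rw [Cf.sz, Cf.sz, hJ, hJ]
  rw [h2]
  exact hτ σ

theorem card_ba (τ : Cf Ω) (hτ : τ.Min) {a : Bool} {s0 : ℕ} (D : DS τ.u a s0) :
    (τ.R (!a)) '' (τ.J (!a)) ⊆ τ.J a := by
  have h1 := (min_next τ hτ D).2 (!a)
  have h2 : (τ.R (!a)) '' ((τ.next D).J (!a)) ⊆ τ.J a := I_ba D τ.R τ.w0
  rwa [h1] at h2

theorem card_le (τ : Cf Ω) (hτ : τ.Min) {a : Bool} {s0 : ℕ} (D : DS τ.u a s0) :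
    (τ.J (!a)).ncard ≤ (τ.J a).ncard := by
  have h1 := Set.ncard_le_ncard (card_ba τ hτ D) (Set.toFinite _)
  rwa [Set.ncard_image_of_injective _ (τ.R (!a)).injective] at h1

theorem card_ge (d : ℕ) : ∀ (τ : Cf Ω), τ.Min → ∀ (a : Bool) (s0 : ℕ), DS τ.u a s0 →
    ∀ i, 0 < d → τ.u i = !a → τ.u (i + d) = !a → (τ.J a).ncard ≤ (τ.J (!a)).ncard := by
  induction d using Nat.strong_induction_on with
  | _ d ih =>
  intro τ hτ a s0 D i hd hi1 hi2
  obtain ⟨hm, hJ⟩ := min_next τ hτ D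
  obtain ⟨b, hb⟩ := typ _ (st_ud D)
  obtain ⟨s1, -, D'⟩ := exists_start (st_ud D) hb
  rw [← hJ a, ← hJ (!a)]
  by_cases hba : b = a
  · subst hba
    -- a closer pair
    obtain ⟨j, hj1, hj2⟩ := τ.st.rcr i (d + 1) (s0 + 1)
    have e1 := hj2 0 (by omega)
    rw [add_zero, add_zero, hi1] at e1
    have e2 := hj2 d (by omega)
    rw [hi2] at e2
    obtain ⟨k1, f1, f2⟩ := pp_of_b D j (by omega) e1.symm
    obtain ⟨k2, f3, f4⟩ := pp_of_b D (j + d) (by omega) e2.symm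
    have hk : k1 < k2 := by
      by_contra hc
      have := pp_mono' (u := τ.u) (a := b) (s0 := s0) (show k2 ≤ k1 by omega)
      omega
    have g1 := pp_b k1 f2
    have g2 := pp_ge' (u := τ.u) (a := b) (s0 := s0) (k1 + 1) (k2 - k1 - 1)
    rw [show k1 + 1 + (k2 - k1 - 1) = k2 by omega] at g2
    exact ih (k2 - k1) (by omega) (τ.next D) hm b s1 D' k1 (by omega) f2 (by
      rw [show k1 + (k2 - k1) = k2 by omega]; exact f4)
  · rw [not_iff] at hba
    subst hba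
    have := card_le (τ.next D) hm D'
    rwa [Bool.not_not] at this

theorem card_eq (τ : Cf Ω) (hτ : τ.Min) {a : Bool} {s0 : ℕ} (D : DS τ.u a s0) :
    (τ.J a).ncard = (τ.J (!a)).ncard := by
  apply le_antisymm _ (card_le τ hτ D)
  obtain ⟨i, -, hi1, -⟩ := exists_change τ.u τ.st (!a) 0
  obtain ⟨j, hj1, hj2, -⟩ := exists_change τ.u τ.st (!a) (i + 1)
  exact card_ge (j - i) τ hτ a s0 D i (by omega) hi1 (by
    rw [show i + (j - i) = j by omega]; exact hj2)

theorem J_swap (τ : Cf Ω) (hτ : τ.Min) (c : Bool) : (τ.R c) '' (τ.J c) = τ.J (!c) := by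
  obtain ⟨a, ha⟩ := typ _ τ.st
  obtain ⟨s0, -, D⟩ := exists_start τ.st ha
  have h1 := card_eq τ hτ D
  by_cases hca : c = a
  · subst hca
    symm
    apply Set.eq_of_subset_of_ncard_le (I_ab D τ.R τ.w0) _ (Set.toFinite _)
    rw [Set.ncard_image_of_injective _ (τ.R c).injective]
    exact h1.le
  · rw [not_iff] at hca
    subst hca
    rw [Bool.not_not]
    apply Set.eq_of_subset_of_ncard_le (card_ba τ hτ D) _ (Set.toFinite _)
    rw [Set.ncard_image_of_injective _ (τ.R (!a)).injective]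
    exact h1.le

theorem min_full (τ : Cf Ω) (hτ : τ.Min) (c : Bool) : τ.J c = Set.univ := by
  obtain ⟨a, ha⟩ := typ _ τ.st
  obtain ⟨s0, -, D⟩ := exists_start τ.st ha
  obtain ⟨hm, hJ⟩ := min_next τ hτ D
  have h1 := J_swap (τ.next D) hm (!a)
  rw [hJ, Bool.not_not, hJ] at h1
  have h2 : ((τ.next D).R (!a)) '' (τ.J (!a)) = (τ.R a) '' ((τ.R (!a)) '' (τ.J (!a))) := by
    rw [Set.image_image]
    apply Set.image_congr
    intro w _
    exact Rd_b τ.R a w
  rw [h2, J_swap τ hτ, Bool.not_not, J_swap τ hτ] at h1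
  have h3 : ∀ c, τ.J c = τ.J a := by
    intro c
    by_cases hca : c = a
    · rw [hca]
    · rw [not_iff] at hca
      rw [hca, h1]
  rw [h3 c]
  apply τ.tr _ (J_nonempty τ a)
  intro c w hw
  rw [← h3 (!c), ← J_swap τ hτ c]
  refine ⟨w, ?_, rfl⟩
  rw [h3 c]
  exact hw

omit [Finite Ω] in
theorem exists_min (τ0 : Cf Ω) : ∃ τ : Cf Ω, τ.Min := by
  classical
  have hex : ∃ n, ∃ τ : Cf Ω, τ.sz = n := ⟨_, τ0, rfl⟩
  obtain ⟨τ, hτ⟩ := Nat.find_spec hex
  refine ⟨τ, fun σ => ?_⟩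
  rw [hτ]
  exact Nat.find_min' hex ⟨σ, rfl⟩

/-- every letter meets every state infinitely often -/
theorem letter_full (τ : Cf Ω) (c : Bool) : τ.J c = Set.univ := by
  obtain ⟨σ, hσ⟩ := exists_min τ
  have h1 : σ.sz ≤ τ.sz := hσ τ
  rw [σ.sz_eq c, τ.sz_eq c, min_full σ hσ, min_full σ hσ] at h1
  have h2 : ∀ V : Set Ω, V.ncard ≤ (Set.univ : Set Ω).ncard :=
    fun V => Set.ncard_le_ncard (Set.subset_univ V) (Set.toFinite _)
  have h3 := h2 (τ.J (!c))
  exact Set.eq_of_subset_of_ncard_le (Set.subset_univ _) (by omega) (Set.toFinite _)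

end

/-- covering a window by blocks -/
theorem cover {u : ℕ → Bool} {a : Bool} {s0 : ℕ} (D : DS u a s0) (n i : ℕ) (hn : 2 ≤ n)
    (hi : s0 < i) : ∃ k l e, e ≤ 1 ∧ pp u a s0 k + e = i ∧ l < n ∧
      i + n ≤ pp u a s0 (k + l) + 1 := by
  classical
  have hk : ∃ k e, e ≤ 1 ∧ pp u a s0 k + e = i ∧ (e = 1 → ud u a s0 k = !a) := by
    by_cases h : u i = a
    · obtain ⟨k, hk⟩ := pp_surj D i (by omega) h
      exact ⟨k, 0, by omega, hk, fun h => absurd h (by omega)⟩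
    · rw [not_iff] at h
      obtain ⟨k, hk, hk2⟩ := pp_of_b D i hi h
      exact ⟨k, 1, le_rfl, hk, fun _ => hk2⟩
  obtain ⟨k, e, he, hke, hb⟩ := hk
  have hex : ∃ l, i + n ≤ pp u a s0 (k + l) + 1 := ⟨i + n, by
    have := pp_ge (u := u) (a := a) (s0 := s0) (k + (i + n)); omega⟩
  have h1 := Nat.find_spec hex
  have h2 : ∀ l, l < Nat.find hex → ¬ i + n ≤ pp u a s0 (k + l) + 1 :=
    fun l hl => Nat.find_min hex hl
  set l := Nat.find hex with hl
  refine ⟨k, l, e, he, hke, ?_, h1⟩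
  by_contra hc
  rcases (show e = 0 ∨ e = 1 by omega) with h0 | h0
  · have h3 := h2 (l - 1) (by omega)
    have h4 := pp_ge' (u := u) (a := a) (s0 := s0) k (l - 1)
    omega
  · have h3 := h2 (l - 1) (by omega)
    have h4 := pp_b k (hb h0)
    have h5 := pp_ge' (u := u) (a := a) (s0 := s0) (k + 1) (l - 2)
    rw [show k + 1 + (l - 2) = k + (l - 1) by omega] at h5
    omega

/-- every factor meets every state -/
theorem full [Finite Ω] (n : ℕ) : ∀ (τ : Cf Ω) (i m : ℕ) (w : Ω),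
    ∃ j, m ≤ j ∧ Same τ.u i j n ∧ stt τ.R τ.u τ.w0 j = w := by
  induction n using Nat.strong_induction_on with
  | _ n ih =>
  intro τ i m w
  rcases Nat.lt_or_ge n 2 with hn | hn
  · have h1 : w ∈ τ.J (τ.u i) := by rw [letter_full]; exact Set.mem_univ w
    obtain ⟨j, hj1, hj2, hj3⟩ := h1 m
    refine ⟨j, hj1, ?_, hj3⟩
    intro t ht
    rw [show t = 0 by omega, add_zero, add_zero, hj2]
  · obtain ⟨a, ha⟩ := typ _ τ.st
    obtain ⟨s0, -, D⟩ := exists_start τ.st ha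
    obtain ⟨i', hi1, hi2⟩ := τ.st.rcr i n (s0 + 1)
    obtain ⟨k, l, e, he1, he2, hl, hcov⟩ := cover D n i' hn (by omega)
    have key : ∀ w', ∃ k', m ≤ k' ∧ Same (ud τ.u a s0) k k' l ∧
        stt τ.R τ.u τ.w0 (pp τ.u a s0 k' + 1) = w' := by
      intro w'
      obtain ⟨k', h1, h2, h3⟩ := ih l hl (τ.next D) k m w'
      refine ⟨k', h1, h2, ?_⟩
      rw [← stt_ud D τ.R τ.w0 k']
      exact h3
    have hsame : ∀ k', Same (ud τ.u a s0) k k' l → Same τ.u i (pp τ.u a s0 k' + e) n := by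
      intro k' h
      obtain ⟨d, h1, h2, h3⟩ := same_lift D l k k' h
      intro t ht
      rw [hi2 t ht]
      have := h3 (e + t) (by omega)
      rwa [← add_assoc, ← add_assoc, he2] at this
    rcases (show e = 0 ∨ e = 1 by omega) with h0 | h0
    · obtain ⟨k', h1, h2, h3⟩ := key (τ.R a w)
      have hge := pp_ge (u := τ.u) (a := a) (s0 := s0) k'
      refine ⟨pp τ.u a s0 k' + e, by omega, hsame k' h2, ?_⟩
      rw [stt, u_pp D] at h3
      rw [h0, add_zero]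
      exact (τ.R a).injective h3
    · obtain ⟨k', h1, h2, h3⟩ := key w
      have hge := pp_ge (u := τ.u) (a := a) (s0 := s0) k'
      refine ⟨pp τ.u a s0 k' + e, by omega, hsame k' h2, ?_⟩
      rw [h0]
      exact h3

/-- the language of a Sturmian word is closed under reversal -/
theorem rev (n : ℕ) : ∀ (u : ℕ → Bool), St u → ∀ i, ∃ j, Opp u i j n := by
  induction n using Nat.strong_induction_on with
  | _ n ih =>
  intro u hu i
  rcases Nat.lt_or_ge n 2 with hn | hn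
  · refine ⟨i, ?_⟩
    intro s t hst
    rw [show s = 0 by omega, show t = 0 by omega]
  · obtain ⟨a, ha⟩ := typ _ hu
    obtain ⟨s0, -, D⟩ := exists_start hu ha
    obtain ⟨i', hi1, hi2⟩ := hu.rcr i n (s0 + 1)
    obtain ⟨k, l, e, he1, he2, hl, hcov⟩ := cover D n i' hn (by omega)
    obtain ⟨k', hk'⟩ := ih l hl _ (st_ud D) k
    obtain ⟨d, h1, h2, h3⟩ := opp_lift D l k k' hk'
    refine ⟨pp u a s0 k' + (d + 1 - e - n), ?_⟩
    intro s t hst
    rw [hi2 s (by omega), ← he2]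
    have := h3 (e + s) (d + 1 - e - n + t) (by omega)
    rwa [← add_assoc, ← add_assoc] at this

end Pool.Agent.V11120.Stm
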